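import Pool.Agent.Helper79.EL.LB
import Pool.Agent.Helper79.EL.LC

set_option autoImplicit false

/-!
# Smooth potentials with orbits which escape to infinity: the passage through the tube

Adapted from `EK/LA`, that is from the library file of the same name in `Helper6K9/EH`.
-/

namespace Pool.Agent.Helper69.EL

open Set Filter Topology Pool.Agent.Helper6K9.ES
open Pool.Agent.Helper6K9.EH (Prof Fam eX eY dst pt Tr mkFam Pv Shf S_PROF S_FLOW)
open Pool.Agent.Helper69.EK (MM tau ss ee dd qq hf eta Shp Smk NearId)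
open scoped ContDiff

namespace LaL

open LoopL

/-- the offset in the plateau, for curves close to the homoclinic solution -/
theorem offset {e : Env} {j₀ : ℕ} {H : ℝ → ℝ} (ok : EnvOK e j₀) (hH : Hom e.toSta H) {m : ℕ}
    (hm1 : H (-m + 1) < 1 / 8) {c₀ : ℝ} (hc₀ : 0 < c₀)
    (hlow : ∀ z z', -((m : ℝ) + 2) ≤ z → z ≤ z' → z' ≤ (m : ℝ) + 2 → c₀ * (z' - z) ≤ H z' - H z)
    {j : ℕ} {Y t σ κ : ℝ} (h1 : -((m : ℝ) + 2) ≤ t - tau j + σ) (h2 : t - tau j + σ ≤ (m : ℝ) + 2)
    (hκ : |Y - H (t - tau j + σ)| ≤ κ) (hY : |Y - 1 / 2| ≤ 1 / 4) :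
    |eta (e.l * e.c) j Y t - e.l * e.c * σ| ≤ (2 + 1 / c₀) * κ := by
  have hq := quarter_lt ok.toStaOK hH hm1
  have hκ0 : 0 ≤ κ := (abs_nonneg _).trans hκ
  have h3 : |H (t - tau j + σ) - 1 / 2| ≤ 1 / 4 + κ := by
    have := abs_sub_le (H (t - tau j + σ)) Y (1 / 2)
    rw [abs_sub_comm] at hκ
    linarith
  have h4 := hom_lin ok.toStaOK hH (R := (m : ℝ) + 2) (by linarith) hc₀ hlow h1 h2 hκ0 h3
  have h5 : eta (e.l * e.c) j Y t - e.l * e.c * σ = (Y - H (t - tau j + σ)) +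
      (H (t - tau j + σ) - 1 / 2 - e.l * e.c * (t - tau j + σ)) := by
    unfold eta; ring
  rw [h5]
  refine (abs_add_le _ _).trans ?_
  linarith

theorem coreA {e : Env} {j₀ : ℕ} {H : ℝ → ℝ} (ok : EnvOK e j₀) (hH : Hom e.toSta H) {M : ℝ}
    (hM : Cst e.toSta M) {m : ℕ} (hm : 2 ≤ m) (hm1 : H (-m + 1) < 1 / 8) {c₀ : ℝ} (hc₀ : 0 < c₀)
    (hlow : ∀ z z', -((m : ℝ) + 2) ≤ z → z ≤ z' → z' ≤ (m : ℝ) + 2 → c₀ * (z' - z) ≤ H z' - H z)
    {E₁ Cρ Cd CH : ℝ} (hE₁ : E₁ = Real.exp (M * (2 * m))) (hCρ : Cρ = (1 + 8 * m * M ^ 2) * E₁)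
    (hCd : Cd = 4 * m * Cρ * E₁) (hCH : CH = 2 + 1 / c₀) {C : ℝ} {j n : ℕ} (hj : j₀ ≤ j)
    (hj1 : 1 ≤ j) {F : Fam} {a b : ℝ} {T : ℕ} {ε : ℝ} (i1 : ss (e.l * e.c) j ≤ 1 / 8)
    (i2 : ε ≤ ee j * ss (e.l * e.c) j) (i3 : C * ε ≤ ee j * ss (e.l * e.c) j)
    (i4 : 4 * CH * Cd * ee j ≤ 1 / 2) (hE : Ent e H m j F a b T n ε C)
    {s : ℝ} (hs : s ∈ Icc a b) {σ : ℝ} (hσ : |e.l * e.c * σ| ≤ ss (e.l * e.c) j / 2)
    (hσ1 : |σ| ≤ 1) (hYσ : F.Y s T = H (-m - tau j + σ)) :
    ∀ t ∈ Icc (T : ℝ) (T + 2 * m), |rho e F s t| ≤ Cρ * (ee j * ss (e.l * e.c) j) ∧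
      |F.Y s t - H (t - T - m - tau j + σ)| ≤ Cd * (ee j * ss (e.l * e.c) j) ∧
      (|F.Y s t - 1 / 2| ≤ 1 / 4 → |eta (e.l * e.c) j (F.Y s t) (t - T - m) - e.l * e.c * σ| ≤
        CH * (Cd * (ee j * ss (e.l * e.c) j))) := by
  have hM1 := hM.one
  have hM0 : 0 < M := by linarith
  have hmR : (2 : ℝ) ≤ m := by exact_mod_cast hm
  have hu := u_pos ok.toStaOK
  have he := ee_pos hj1
  have he1 := ee_le hj1
  have hss := ss_pos hu hj1
  have htau := tau_pos hj1
  have htau1 := tau_le hj1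
  have hl := ok.hl
  have hl1 := ok.hl1
  have hE₁1 : 1 ≤ E₁ := by
    rw [hE₁]; exact Real.one_le_exp (by positivity)
  have hE₁0 : 0 < E₁ := by linarith
  have hCρ1 : 1 ≤ Cρ := by
    rw [hCρ]
    have h1 : 1 ≤ 1 + 8 * m * M ^ 2 := by
      have : 0 ≤ 8 * m * M ^ 2 := by positivity
      linarith
    exact h1.trans (le_mul_of_one_le_right (by linarith) hE₁1)
  have hCρ0 : 0 < Cρ := by linarith
  have hCd0 : 0 < Cd := by rw [hCd]; positivity
  have hCH2 : 2 ≤ CH := by
    rw [hCH]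
    have : 0 < 1 / c₀ := by positivity
    linarith
  have hCH0 : 0 < CH := by linarith
  have ctl := hE.ctl
  have hTT : (T : ℝ) ≤ T + 2 * m := by linarith
  have tT : (T : ℝ) ∈ Icc (T : ℝ) (T + 2 * m) := ⟨le_rfl, hTT⟩
  set S := ss (e.l * e.c) j with hS
  set κ : ℝ := S / (4 * CH) with hκdef
  have hκ0 : 0 < κ := by positivity
  have hκCH : CH * κ = S / 4 := by rw [hκdef]; field_simp
  have hκS : κ ≤ 1 / 8 := by
    have h1 : 1 * κ ≤ CH * κ := mul_le_mul_of_nonneg_right (by linarith) hκ0.le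
    linarith
  have hε0 : 0 ≤ ε := by
    have h0 := (ctl.bd s hs T tT).1
    exact (abs_nonneg _).trans h0
  have hσ' := abs_le.1 hσ1
  have zr : ∀ t ∈ Icc (T : ℝ) (T + 2 * m), -((m : ℝ) + 2) ≤ t - T - m - tau j + σ ∧
      t - T - m - tau j + σ ≤ (m : ℝ) + 2 := by
    intro t ht
    constructor
    · linarith [ht.1]
    · linarith [ht.2]
  -- the passage
  have step : ∀ t ∈ Icc (T : ℝ) (T + 2 * m),
      (∀ x ∈ Icc (T : ℝ) t, |F.Y s x - H (x - T - m - tau j + σ)| ≤ κ) →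
      |rho e F s t| ≤ Cρ * (ee j * S) ∧
      |F.Y s t - H (t - T - m - tau j + σ)| ≤ Cd * (ee j * S) := by
    intro t ht hx
    have hsub : ∀ x ∈ Icc (T : ℝ) t, x ∈ Icc (T : ℝ) (T + 2 * m) := fun x hx =>
      ⟨hx.1, hx.2.trans ht.2⟩
    have loc : ∀ x ∈ Icc (T : ℝ) t, -(1 / 4) ≤ F.Y s x ∧ F.Y s x ≤ 5 / 4 := by
      intro x hx'
      have h1 := abs_le.1 ((hx x hx').trans hκS)
      have h2 := hH.mem (x - T - m - tau j + σ)
      constructor <;> linarith
    have tub : ∀ x ∈ Icc (T : ℝ) t, |F.Y s x - 1 / 2| ≤ 1 / 4 →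
        |eta (e.l * e.c) j (F.Y s x) (x - ((T + m : ℤ) : ℝ))| ≤ S := by
      intro x hx' hY
      rw [show x - ((T + m : ℤ) : ℝ) = x - T - m by push_cast; ring]
      have h1 := zr x (hsub x hx')
      have h2 := offset ok hH hm1 hc₀ hlow (j := j) (Y := F.Y s x) (t := x - T - m) (σ := σ)
        (κ := κ) h1.1 h1.2 (hx x hx') hY
      rw [← hCH, hκCH] at h2
      have h3 := abs_sub_abs_le_abs_sub (eta (e.l * e.c) j (F.Y s x) (x - T - m))
        (e.l * e.c * σ)
      linarith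
    have bY : ∀ x ∈ Icc (T : ℝ) t, |e.Ky (F.X s x) (F.Y s x) x| ≤ 2 * M * (ee j * S) :=
      fun x hx' => LcL.Ky_bd ok hM hj hj1 _ _ _ (T + m) (loc x hx').1 (loc x hx').2 (by linarith)
        (tub x hx')
    have hrT : |rho e F s T| ≤ ee j * S := by
      have h1 : |F.Y s T| ≤ 1 / 8 := by
        rw [hYσ]
        have h2 := hH.mem (-m - tau j + σ)
        have h3 : H (-m - tau j + σ) ≤ H (-m + 1) := hH.mon.monotone (by linarith)
        rw [abs_of_pos h2.1]
        linarith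
      rw [LbL.k_bot ok h1]
      exact (hE.zz s hs).trans i3
    have hr : ∀ y ∈ Icc (T : ℝ) t, |rho e F s y| ≤ Cρ * (ee j * S) := by
      intro y hy
      have h1 := gron (f := rho e F s) (f' := fun t =>
        -(e.l * deriv e.k (F.Y s t)) * rho e F s t + (e.γ * e.Ky (F.X s t) (F.Y s t) t +
        ew e F s t - e.l * deriv e.k (F.Y s t) * eY F s t)) (a := T) (b := t)
        (A := M) (B := 4 * M ^ 2 * (ee j * S)) hM0 (by positivity)
        (fun x hx' => der_rho hM ctl hs (hsub x hx')) (fun x hx' => by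
          simp only [Real.norm_eq_abs]
          obtain ⟨-, b2, b3, -⟩ := ctl.bd s hs x (hsub x hx')
          have g0 : |e.l * deriv e.k (F.Y s x)| ≤ M := by
            rw [abs_mul, abs_of_pos hl]
            calc e.l * |deriv e.k (F.Y s x)| ≤ 1 * M :=
                  mul_le_mul (by linarith) (hM.k1 _) (abs_nonneg _) zero_le_one
              _ = M := one_mul _
          have g1 : |-(e.l * deriv e.k (F.Y s x)) * rho e F s x| ≤ M * |rho e F s x| := by
            rw [abs_mul, abs_neg]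
            exact mul_le_mul_of_nonneg_right g0 (abs_nonneg _)
          have g2 : |e.γ * e.Ky (F.X s x) (F.Y s x) x| ≤ M * (2 * M * (ee j * S)) := by
            rw [abs_mul, abs_of_pos ok.hγ]
            exact mul_le_mul hM.ga (bY x hx') (abs_nonneg _) hM0.le
          have g3 : |e.l * deriv e.k (F.Y s x) * eY F s x| ≤ M * (ee j * S) := by
            rw [abs_mul]
            exact mul_le_mul g0 (b2.trans i2) (abs_nonneg _) hM0.le
          have g4 : |ew e F s x| ≤ M * (ee j * S) :=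
            (b3.trans i2).trans (le_mul_of_one_le_left (by positivity) hM1)
          have g5 := abs_add_le (-(e.l * deriv e.k (F.Y s x)) * rho e F s x)
            (e.γ * e.Ky (F.X s x) (F.Y s x) x + ew e F s x -
              e.l * deriv e.k (F.Y s x) * eY F s x)
          have g6 := abs_sub (e.γ * e.Ky (F.X s x) (F.Y s x) x + ew e F s x)
            (e.l * deriv e.k (F.Y s x) * eY F s x)
          have g7 := abs_add_le (e.γ * e.Ky (F.X s x) (F.Y s x) x) (ew e F s x)
          have g8 : M * (ee j * S) ≤ M ^ 2 * (ee j * S) := by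
            have : M ^ 2 * (ee j * S) = M * (M * (ee j * S)) := by ring
            rw [this]
            exact le_mul_of_one_le_left (by positivity) hM1
          have g9 : M * (2 * M * (ee j * S)) = 2 * (M ^ 2 * (ee j * S)) := by ring
          linarith) y hy T ⟨le_rfl, ht.1⟩
      simp only [Real.norm_eq_abs] at h1
      refine h1.trans ?_
      have h2 : t - T ≤ 2 * m := by linarith [ht.2]
      have h3 : 4 * M ^ 2 * (ee j * S) * (t - T) ≤ 4 * M ^ 2 * (ee j * S) * (2 * m) :=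
        mul_le_mul_of_nonneg_left h2 (by positivity)
      have h4 : Real.exp (M * (t - T)) ≤ E₁ := by
        rw [hE₁]
        exact Real.exp_le_exp.2 (mul_le_mul_of_nonneg_left h2 hM0.le)
      calc (|rho e F s T| + 4 * M ^ 2 * (ee j * S) * (t - T)) * Real.exp (M * (t - T)) ≤
            (ee j * S + 4 * M ^ 2 * (ee j * S) * (2 * m)) * E₁ :=
            mul_le_mul (by linarith) h4 (Real.exp_pos _).le (by positivity)
        _ = Cρ * (ee j * S) := by rw [hCρ]; ring
    refine ⟨hr t ⟨ht.1, le_rfl⟩, ?_⟩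
    have hHd : ∀ x : ℝ, HasDerivAt (fun x => H (x - T - m - tau j + σ))
        (e.l * e.k (H (x - T - m - tau j + σ))) x := by
      intro x
      have h1 : HasDerivAt (fun x : ℝ => x - T - m - tau j + σ) 1 x :=
        (((((hasDerivAt_id' x).sub_const (T : ℝ)).sub_const (m : ℝ)).sub_const
          (tau j)).add_const σ)
      have h2 := (hH.der (x - T - m - tau j + σ)).comp x h1
      rw [mul_one] at h2
      exact h2
    have h1 := gron (f := fun x => F.Y s x - H (x - T - m - tau j + σ)) (f' := fun x =>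
      F.w s x + eY F s x - e.l * e.k (H (x - T - m - tau j + σ))) (a := T) (b := t)
      (A := M) (B := 2 * Cρ * (ee j * S)) hM0 (by positivity)
      (fun x hx' => (der_Y ctl hs (hsub x hx')).sub (hHd x)) (fun x hx' => by
        simp only [Real.norm_eq_abs]
        obtain ⟨-, b2, -, -⟩ := ctl.bd s hs x (hsub x hx')
        have e1 : F.w s x + eY F s x - e.l * e.k (H (x - T - m - tau j + σ)) =
            e.l * (e.k (F.Y s x) - e.k (H (x - T - m - tau j + σ))) + (rho e F s x +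
              eY F s x) := by unfold rho; ring
        rw [e1]
        have g1 : |e.l * (e.k (F.Y s x) - e.k (H (x - T - m - tau j + σ)))| ≤
            M * |F.Y s x - H (x - T - m - tau j + σ)| := by
          rw [abs_mul, abs_of_pos hl]
          calc e.l * |e.k (F.Y s x) - e.k (H (x - T - m - tau j + σ))| ≤
                1 * (M * |F.Y s x - H (x - T - m - tau j + σ)|) :=
                mul_le_mul (by linarith) (hM.kl _ _) (abs_nonneg _) zero_le_one
            _ = _ := one_mul _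
        have g2 := hr x hx'
        have g3 : |eY F s x| ≤ Cρ * (ee j * S) :=
          (b2.trans i2).trans (le_mul_of_one_le_left (by positivity) hCρ1)
        have g4 := abs_add_le (e.l * (e.k (F.Y s x) - e.k (H (x - T - m - tau j + σ))))
          (rho e F s x + eY F s x)
        have g5 := abs_add_le (rho e F s x) (eY F s x)
        linarith) t ⟨ht.1, le_rfl⟩ T ⟨le_rfl, ht.1⟩
    simp only [Real.norm_eq_abs] at h1
    have e0 : F.Y s T - H (T - T - m - tau j + σ) = 0 := by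
      rw [hYσ, show (T : ℝ) - T - m - tau j + σ = -m - tau j + σ by ring, sub_self]
    rw [e0, abs_zero, zero_add] at h1
    refine h1.trans ?_
    have h2 : t - T ≤ 2 * m := by linarith [ht.2]
    have h3 : 2 * Cρ * (ee j * S) * (t - T) ≤ 2 * Cρ * (ee j * S) * (2 * m) :=
      mul_le_mul_of_nonneg_left h2 (by positivity)
    have h4 : Real.exp (M * (t - T)) ≤ E₁ := by
      rw [hE₁]
      exact Real.exp_le_exp.2 (mul_le_mul_of_nonneg_left h2 hM0.le)
    calc 2 * Cρ * (ee j * S) * (t - T) * Real.exp (M * (t - T)) ≤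
          2 * Cρ * (ee j * S) * (2 * m) * E₁ :=
          mul_le_mul h3 h4 (Real.exp_pos _).le (by positivity)
      _ = Cd * (ee j * S) := by rw [hCd]; ring
  -- bootstrap
  have hsmall : Cd * (ee j * S) < κ := by
    have h1 : Cd * (ee j * S) * (4 * CH) ≤ 1 / 2 * S := by
      have := mul_le_mul_of_nonneg_right i4 hss.le
      calc Cd * (ee j * S) * (4 * CH) = 4 * CH * Cd * ee j * S := by ring
        _ ≤ _ := this
    rw [hκdef, lt_div_iff₀ (by positivity)]
    linarith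
  have hcont : ContinuousOn (fun t => |F.Y s t - H (t - T - m - tau j + σ)|)
      (Icc (T : ℝ) (T + 2 * m)) := by
    intro x hx
    have h1 : ContinuousAt (F.Y s) x := (der_Y ctl hs hx).continuousAt
    have h2 : Continuous H := continuous_iff_continuousAt.2 fun t => (hH.der t).continuousAt
    have h3 : ContinuousAt (fun t : ℝ => H (t - T - m - tau j + σ)) x :=
      (h2.comp (by fun_prop : Continuous fun t : ℝ => t - T - m - tau j + σ)).continuousAt
    exact (h1.sub h3).abs.continuousWithinAt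
  have hb := boot (f := fun t => |F.Y s t - H (t - T - m - tau j + σ)|) (κ := κ) hcont (by
      have e0 : F.Y s T - H (T - T - m - tau j + σ) = 0 := by
        rw [hYσ, show (T : ℝ) - T - m - tau j + σ = -m - tau j + σ by ring, sub_self]
      simp only [e0, abs_zero]
      exact hκ0) (fun t ht hx => (step t ht hx).2.trans_lt hsmall)
  intro t ht
  obtain ⟨r1, r2⟩ := step t ht fun x hx => (hb x ⟨hx.1, hx.2.trans ht.2⟩).le
  refine ⟨r1, r2, fun hY => ?_⟩
  have h1 := zr t ht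
  rw [hCH]
  exact offset ok hH hm1 hc₀ hlow (j := j) (Y := F.Y s t) (t := t - T - m) (σ := σ) h1.1 h1.2
    r2 hY

theorem coreB {e : Env} {j₀ : ℕ} {H : ℝ → ℝ} (ok : EnvOK e j₀) (hH : Hom e.toSta H) {M : ℝ}
    (hM : Cst e.toSta M) {m : ℕ} (hm : 2 ≤ m)
    {z₁ z₂ κ : ℝ} (hz : z₁ < z₂) (hz1 : -(m : ℝ) + 1 ≤ z₁) (hz2 : z₂ ≤ 0)
    (hw : ∀ z ∈ Icc z₁ z₂, ∀ y, |y - H z| ≤ κ → 1 ≤ e.χ y ∧ e.k y = e.c)
    {Cρ G CΘ θ : ℝ} (hG : G = (z₂ - z₁) * (e.c * (e.γ / 4)))
    (hCΘ : CΘ = M ^ 2 + 2 * M * Cρ ^ 2 + 2 * M) (hθ : θ * (CΘ * (2 * m) + 1) ≤ G / 2)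
    (hCρ1 : 1 ≤ Cρ) {C C₇ : ℝ} {j n : ℕ} (hj : j₀ ≤ j)
    (hj1 : 1 ≤ j) {F : Fam} {a b : ℝ} {T : ℕ} {ε : ℝ} (i1 : ss (e.l * e.c) j ≤ 1)
    (i1' : ss (e.l * e.c) j ≤ θ) (i2 : ε ≤ ee j * ss (e.l * e.c) j)
    (i2' : ε ≤ θ * (ee j * ss (e.l * e.c) j)) (i5 : C₇ * ss (e.l * e.c) j ≤ κ)
    (i6 : C₇ * ss (e.l * e.c) j ≤ 1 / 4) (hE : Ent e H m j F a b T n ε C)
    (hT : Thr e H m j F a b T C₇) {s : ℝ} (hs : s ∈ Icc a b)
    (hrT : |rho e F s T| ≤ θ * (ee j * ss (e.l * e.c) j))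
    (hr : ∀ t ∈ Icc (T : ℝ) (T + 2 * m), |rho e F s t| ≤ Cρ * (ee j * ss (e.l * e.c) j))
    {ς : ℝ} (hς : |ς| = 1) (hη : ∀ t ∈ Icc (T : ℝ) (T + 2 * m), |F.Y s t - 1 / 2| ≤ 1 / 4 →
      ss (e.l * e.c) j / 4 ≤ ς * eta (e.l * e.c) j (F.Y s t) (t - T - m)) :
    G / 2 * (ee j * ss (e.l * e.c) j) ≤
      ς * (e.k (F.Y s (T + 2 * m)) * rho e F s (T + 2 * m)) := by
  have hM1 := hM.one
  have hM0 : 0 < M := by linarith
  have hmR : (2 : ℝ) ≤ m := by exact_mod_cast hm
  have hu := u_pos ok.toStaOK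
  have he := ee_pos hj1
  have he1 := ee_le hj1
  have hss := ss_pos hu hj1
  have htau := tau_pos hj1
  have htau1 := tau_le hj1
  have hl := ok.hl
  have hl1 := ok.hl1
  have ctl := hE.ctl
  have hTT : (T : ℝ) ≤ T + 2 * m := by linarith
  set S := ss (e.l * e.c) j with hS
  have hCρ0 : 0 < Cρ := by linarith
  have hθ0 : 0 ≤ θ := hss.le.trans i1'
  have heS : 0 < ee j * S := mul_pos he hss
  have loc : ∀ t ∈ Icc (T : ℝ) (T + 2 * m), -(1 / 4) ≤ F.Y s t ∧ F.Y s t ≤ 5 / 4 := by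
    intro t ht
    have h1 := (hT.near s hs t ht).1
    have h2 := hH.mem (t - T - m - tau j)
    have h3 := abs_le.1 (h1.trans i6)
    constructor <;> linarith
  have tub : ∀ t ∈ Icc (T : ℝ) (T + 2 * m), |F.Y s t - 1 / 2| ≤ 1 / 4 →
      |eta (e.l * e.c) j (F.Y s t) (t - ((T + m : ℤ) : ℝ))| ≤ S := by
    intro t ht h
    have := hT.tube s hs t ht h
    rw [show t - ((T + m : ℤ) : ℝ) = t - T - m by push_cast; ring]
    exact this
  have hςm : ∀ x : ℝ, |ς * x| = |x| := fun x => by rw [abs_mul, hς, one_mul]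
  -- the force of the tube
  have hK : ∀ t ∈ Icc (T : ℝ) (T + 2 * m),
      e.k (F.Y s t) * e.χ (F.Y s t) * (e.γ / 4) * (ee j * S) - M ^ 2 * (θ * (ee j * S)) ≤
        ς * (e.k (F.Y s t) * (e.γ * e.Ky (F.X s t) (F.Y s t) t)) := by
    intro t ht
    obtain ⟨t1, -, -, -⟩ := tubeAt ok hj (F.X s t) (F.Y s t) t (T + m) (loc t ht).1 (loc t ht).2
      (tub t ht)
    rw [show t - ((T + m : ℤ) : ℝ) = t - T - m by push_cast; ring] at t1
    rw [t1]
    have hpos : 0 ≤ M ^ 2 * (θ * (ee j * S)) := by positivity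
    by_cases hY : |F.Y s t - 1 / 2| ≤ 1 / 4
    · have h1 := hη t ht hY
      have h2 := tub t ht hY
      rw [show t - ((T + m : ℤ) : ℝ) = t - T - m by push_cast; ring] at h2
      set η := eta (e.l * e.c) j (F.Y s t) (t - T - m)
      have h3 : 0 ≤ e.k (F.Y s t) * e.χ (F.Y s t) * (e.γ * ee j) :=
        mul_nonneg (k_chi ok.toStaOK _) (mul_nonneg ok.hγ.le he.le)
      have h4 := mul_le_mul_of_nonneg_left h1 h3
      have h5 : |ς * (e.k (F.Y s t) * (e.γ * (ee j * (η ^ 2 / 2 * deriv e.χ (F.Y s t)))))| ≤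
          M ^ 2 * (θ * (ee j * S)) := by
        rw [hςm, abs_mul, abs_mul, abs_mul, abs_mul, abs_of_pos ok.hγ, abs_of_pos he]
        have g1 : |η ^ 2 / 2| ≤ θ * S := by
          rw [abs_of_nonneg (by positivity)]
          have g2 : η ^ 2 ≤ S ^ 2 := by
            rw [← sq_abs η]
            exact pow_le_pow_left₀ (abs_nonneg _) h2 2
          have g3 : S ^ 2 ≤ θ * S := by
            rw [sq]; exact mul_le_mul_of_nonneg_right i1' hss.le
          have g4 : 0 ≤ θ * S := by positivity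
          linarith
        have g5 : |η ^ 2 / 2| * |deriv e.χ (F.Y s t)| ≤ θ * S * M :=
          mul_le_mul g1 (hM.c1 _) (abs_nonneg _) (by positivity)
        have g6 : ee j * (|η ^ 2 / 2| * |deriv e.χ (F.Y s t)|) ≤ ee j * (θ * S * M) :=
          mul_le_mul_of_nonneg_left g5 he.le
        have g7 : e.γ * (ee j * (|η ^ 2 / 2| * |deriv e.χ (F.Y s t)|)) ≤
            M * (ee j * (θ * S * M)) :=
          mul_le_mul hM.ga g6 (by positivity) hM0.le
        calc |e.k (F.Y s t)| * (e.γ * (ee j * (|η ^ 2 / 2| * |deriv e.χ (F.Y s t)|))) ≤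
              1 * (M * (ee j * (θ * S * M))) :=
              mul_le_mul (ok.prof.le_one _) g7 (mul_nonneg ok.hγ.le (by positivity)) zero_le_one
          _ = M ^ 2 * (θ * (ee j * S)) := by ring
      have h6 := (abs_le.1 h5).1
      have e1 : ς * (e.k (F.Y s t) * (e.γ * (ee j * (η * e.χ (F.Y s t) +
          η ^ 2 / 2 * deriv e.χ (F.Y s t))))) =
          e.k (F.Y s t) * e.χ (F.Y s t) * (e.γ * ee j) * (ς * η) +
          ς * (e.k (F.Y s t) * (e.γ * (ee j * (η ^ 2 / 2 * deriv e.χ (F.Y s t))))) := by ring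
      rw [e1]
      have e2 : e.k (F.Y s t) * e.χ (F.Y s t) * (e.γ * ee j) * (S / 4) =
          e.k (F.Y s t) * e.χ (F.Y s t) * (e.γ / 4) * (ee j * S) := by ring
      linarith
    · have hc : F.Y s t < 3 / 8 ∨ 1 / 2 < F.Y s t := by
        rcases lt_abs.1 (not_le.1 hY) with h3 | h3
        · right; linarith
        · left; linarith
      obtain ⟨c1, c2⟩ := chi_zero ok.toStaOK hc
      rw [c1, c2]
      simp only [mul_zero, zero_mul, add_zero]
      linarith
  have hPd : ∀ t ∈ Icc (T : ℝ) (T + 2 * m), HasDerivAt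
      (fun t => ς * (e.k (F.Y s t) * rho e F s t))
      (ς * (deriv e.k (F.Y s t) * (rho e F s t + eY F s t) * rho e F s t +
        e.k (F.Y s t) * (e.γ * e.Ky (F.X s t) (F.Y s t) t +
        ew e F s t - e.l * deriv e.k (F.Y s t) * eY F s t))) t := fun t ht =>
    (der_P hM ctl hs ht).const_mul ς
  have hPlow : ∀ t ∈ Icc (T : ℝ) (T + 2 * m),
      e.k (F.Y s t) * e.χ (F.Y s t) * (e.γ / 4) * (ee j * S) - CΘ * (θ * (ee j * S)) ≤
      ς * (deriv e.k (F.Y s t) * (rho e F s t + eY F s t) * rho e F s t +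
        e.k (F.Y s t) * (e.γ * e.Ky (F.X s t) (F.Y s t) t +
        ew e F s t - e.l * deriv e.k (F.Y s t) * eY F s t)) := by
    intro t ht
    obtain ⟨-, b2, b3, -⟩ := ctl.bd s hs t ht
    have g1 : |ς * (deriv e.k (F.Y s t) * (rho e F s t + eY F s t) * rho e F s t)| ≤
        2 * M * Cρ ^ 2 * (θ * (ee j * S)) := by
      rw [hςm, abs_mul, abs_mul]
      have h1 : |rho e F s t + eY F s t| ≤ 2 * Cρ * S := by
        refine (abs_add_le _ _).trans ?_
        have h2 := hr t ht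
        have h3 : ε ≤ Cρ * (ee j * S) := i2.trans (le_mul_of_one_le_left heS.le hCρ1)
        have h4 : Cρ * (ee j * S) ≤ Cρ * S :=
          mul_le_mul_of_nonneg_left (mul_le_of_le_one_left hss.le he1) hCρ0.le
        linarith
      have h5 : |deriv e.k (F.Y s t)| * |rho e F s t + eY F s t| ≤ M * (2 * Cρ * θ) :=
        mul_le_mul (hM.k1 _) (h1.trans (mul_le_mul_of_nonneg_left i1' (by positivity)))
          (abs_nonneg _) hM0.le
      calc |deriv e.k (F.Y s t)| * |rho e F s t + eY F s t| * |rho e F s t| ≤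
            M * (2 * Cρ * θ) * (Cρ * (ee j * S)) :=
            mul_le_mul h5 (hr t ht) (abs_nonneg _) (by positivity)
        _ = _ := by ring
    have g2 : |ς * (e.k (F.Y s t) * (ew e F s t - e.l * deriv e.k (F.Y s t) * eY F s t))| ≤
        2 * M * (θ * (ee j * S)) := by
      rw [hςm, abs_mul]
      have h1 : |e.l * deriv e.k (F.Y s t) * eY F s t| ≤ M * (θ * (ee j * S)) := by
        rw [abs_mul, abs_mul, abs_of_pos hl]
        have h0 : e.l * |deriv e.k (F.Y s t)| ≤ M := by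
          calc e.l * |deriv e.k (F.Y s t)| ≤ 1 * M :=
                mul_le_mul (by linarith) (hM.k1 _) (abs_nonneg _) zero_le_one
            _ = M := one_mul _
        exact mul_le_mul h0 (b2.trans i2') (abs_nonneg _) hM0.le
      have h2 : |ew e F s t| ≤ M * (θ * (ee j * S)) :=
        (b3.trans i2').trans (le_mul_of_one_le_left (by positivity) hM1)
      have h3 := abs_sub (ew e F s t) (e.l * deriv e.k (F.Y s t) * eY F s t)
      calc |e.k (F.Y s t)| * |ew e F s t - e.l * deriv e.k (F.Y s t) * eY F s t| ≤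
            1 * (2 * M * (θ * (ee j * S))) :=
            mul_le_mul (ok.prof.le_one _) (by linarith) (abs_nonneg _) zero_le_one
        _ = _ := one_mul _
    have g3 := hK t ht
    have a1 := (abs_le.1 g1).1
    have a2 := (abs_le.1 g2).1
    have e1 : ς * (deriv e.k (F.Y s t) * (rho e F s t + eY F s t) * rho e F s t +
        e.k (F.Y s t) * (e.γ * e.Ky (F.X s t) (F.Y s t) t +
        ew e F s t - e.l * deriv e.k (F.Y s t) * eY F s t)) =
        ς * (deriv e.k (F.Y s t) * (rho e F s t + eY F s t) * rho e F s t) +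
        ς * (e.k (F.Y s t) * (e.γ * e.Ky (F.X s t) (F.Y s t) t)) +
        ς * (e.k (F.Y s t) * (ew e F s t - e.l * deriv e.k (F.Y s t) * eY F s t)) := by ring
    rw [e1, hCΘ]
    have e2 : (M ^ 2 + 2 * M * Cρ ^ 2 + 2 * M) * (θ * (ee j * S)) = M ^ 2 * (θ * (ee j * S)) +
      2 * M * Cρ ^ 2 * (θ * (ee j * S)) + 2 * M * (θ * (ee j * S)) := by ring
    rw [e2]
    linarith
  -- integration
  set ta : ℝ := T + m + tau j + z₁ with hta
  set tb : ℝ := T + m + tau j + z₂ with htb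
  have ia : (T : ℝ) ≤ ta := by rw [hta]; linarith
  have iab : ta ≤ tb := by rw [hta, htb]; linarith
  have ib : tb ≤ T + 2 * m := by rw [htb]; linarith
  have hkχ : ∀ t, 0 ≤ e.k (F.Y s t) * e.χ (F.Y s t) * (e.γ / 4) * (ee j * S) := by
    intro t
    have h1 := k_chi ok.toStaOK (F.Y s t)
    have h2 : 0 ≤ e.γ / 4 := by linarith [ok.hγ]
    exact mul_nonneg (mul_nonneg h1 h2) heS.le
  have G1 := incr (f := fun t => ς * (e.k (F.Y s t) * rho e F s t))
    (c := -(CΘ * (θ * (ee j * S)))) ia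
    (fun x hx => hPd x ⟨hx.1, hx.2.trans (iab.trans ib)⟩) (fun x hx => by
      have g1 := hPlow x ⟨hx.1, hx.2.trans (iab.trans ib)⟩
      have g2 := hkχ x
      linarith)
  have G2 := incr (f := fun t => ς * (e.k (F.Y s t) * rho e F s t))
    (c := e.c * (e.γ / 4) * (ee j * S) - CΘ * (θ * (ee j * S))) iab
    (fun x hx => hPd x ⟨ia.trans hx.1, hx.2.trans ib⟩) (fun x hx => by
      have hx' : x ∈ Icc (T : ℝ) (T + 2 * m) := ⟨ia.trans hx.1, hx.2.trans ib⟩
      have g1 := hPlow x hx'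
      obtain ⟨g2, g3⟩ := hw (x - T - m - tau j) ⟨by linarith [hx.1], by linarith [hx.2]⟩ (F.Y s x)
        ((hT.near s hs x hx').1.trans i5)
      rw [g3] at g1 ⊢
      have g4 : e.c * (e.γ / 4) * (ee j * S) ≤
          e.c * e.χ (F.Y s x) * (e.γ / 4) * (ee j * S) := by
        have h2 : 0 ≤ e.c * (e.γ / 4) * (ee j * S) := by
          have := ok.prof.cpos
          have := ok.hγ
          positivity
        calc e.c * (e.γ / 4) * (ee j * S) = e.c * (e.γ / 4) * (ee j * S) * 1 := by ring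
          _ ≤ e.c * (e.γ / 4) * (ee j * S) * e.χ (F.Y s x) := mul_le_mul_of_nonneg_left g2 h2
          _ = _ := by ring
      linarith)
  have G3 := incr (f := fun t => ς * (e.k (F.Y s t) * rho e F s t))
    (c := -(CΘ * (θ * (ee j * S)))) ib
    (fun x hx => hPd x ⟨(ia.trans iab).trans hx.1, hx.2⟩) (fun x hx => by
      have g1 := hPlow x ⟨(ia.trans iab).trans hx.1, hx.2⟩
      have g2 := hkχ x
      linarith)
  have hP0 : |ς * (e.k (F.Y s T) * rho e F s T)| ≤ θ * (ee j * S) := by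
    rw [hςm, abs_mul]
    calc |e.k (F.Y s T)| * |rho e F s T| ≤ 1 * (θ * (ee j * S)) :=
          mul_le_mul (ok.prof.le_one _) hrT (abs_nonneg _) zero_le_one
      _ = _ := one_mul _
  have e1 : tb - ta = z₂ - z₁ := by rw [hta, htb]; ring
  have e2 : (e.c * (e.γ / 4) * (ee j * S) - CΘ * (θ * (ee j * S))) * (tb - ta) +
      -(CΘ * (θ * (ee j * S))) * (ta - T) + -(CΘ * (θ * (ee j * S))) * (T + 2 * m - tb) -
      θ * (ee j * S) = G * (ee j * S) - θ * (CΘ * (2 * m) + 1) * (ee j * S) := by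
    rw [hG, ← e1]; ring
  have e3 := mul_le_mul_of_nonneg_right hθ heS.le
  have e4 := (abs_le.1 hP0).1
  linarith

theorem main (st : Sta) (j₀ : ℕ) (H : ℝ → ℝ) (okS : StaOK st j₀) (hH : Hom st H) (m : ℕ)
    (C C₁₀ : ℝ) (hC : 1 ≤ C) (hC₁₀ : 1 ≤ C₁₀) (hm1 : H (-m + 1) < 1 / 8)
    (hm2 : 7 / 8 < H (m - 1)) : ∃ (j₁ : ℕ) (C₇ c₇ : ℝ), j₀ ≤ j₁ ∧ 1 ≤ C₇ ∧ 0 < c₇ ∧
    ∀ e : Env, e.toSta = st → EnvOK e j₀ →
    ∀ (j n : ℕ) (F : Fam) (a b : ℝ) (T : ℕ) (ε : ℝ), 3 ≤ n → j₁ ≤ j → 0 < ε → ε ≤ C₁₀ * qq j →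
      Ent e H m j F a b T n ε C → Thr e H m j F a b T C₇ ∧
      F.w a (T + 2 * m) + e.l * (F.Y a (T + 2 * m) - 1) ≤ -(c₇ * (ee j * ss (e.l * e.c) j)) ∧
      c₇ * (ee j * ss (e.l * e.c) j) ≤ F.w b (T + 2 * m) + e.l * (F.Y b (T + 2 * m) - 1) := by
  obtain ⟨M, hM⟩ := exists_cst okS
  have hM1 := hM.one
  have hM0 : 0 < M := by linarith
  have hu := u_pos okS
  have hm : 2 ≤ m := two_le hH hm1
  have hmR : (2 : ℝ) ≤ m := by exact_mod_cast hm
  obtain ⟨z₁, z₂, κ, hz, hz1, hz2, hκ, hw⟩ := window okS hH hm1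
  obtain ⟨c₀, hc₀, hlow⟩ := hom_low okS hH ((m : ℝ) + 2)
  set E₁ : ℝ := Real.exp (M * (2 * m)) with hE₁
  set Cρ : ℝ := (1 + 8 * m * M ^ 2) * E₁ with hCρ
  set Cd : ℝ := 4 * m * Cρ * E₁ with hCd
  set CH : ℝ := 2 + 1 / c₀ with hCH
  set C₇ : ℝ := Cd + 1 / (2 * (st.l * st.c)) + Cρ with hC₇def
  set G : ℝ := (z₂ - z₁) * (st.c * (st.γ / 4)) with hG
  set CΘ : ℝ := M ^ 2 + 2 * M * Cρ ^ 2 + 2 * M with hCΘ
  have hE₁1 : 1 ≤ E₁ := Real.one_le_exp (by positivity)
  have hE₁0 : 0 < E₁ := by linarith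
  have hCρ1 : 1 ≤ Cρ := by
    have h1 : 1 ≤ 1 + 8 * m * M ^ 2 := by
      have : 0 ≤ 8 * m * M ^ 2 := by positivity
      linarith
    exact h1.trans (le_mul_of_one_le_right (by linarith) hE₁1)
  have hCρ0 : 0 < Cρ := by linarith
  have hCd0 : 0 < Cd := by positivity
  have hCH0 : 0 < CH := by positivity
  have hC₇1 : 1 ≤ C₇ := by
    have : 0 < 1 / (2 * (st.l * st.c)) := by positivity
    rw [hC₇def]; linarith
  have hc := okS.prof.cpos
  have hγ := okS.hγ
  have hGpos : 0 < G := by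
    have : 0 < z₂ - z₁ := sub_pos.2 hz
    positivity
  have hCΘ0 : 0 < CΘ := by positivity
  set θ : ℝ := G / (2 * (CΘ * (2 * m) + 1)) with hθdef
  have hθpos : 0 < θ := by positivity
  have hθ : θ * (CΘ * (2 * m) + 1) ≤ G / 2 := by
    rw [hθdef]
    apply le_of_eq
    have : CΘ * (2 * m) + 1 ≠ 0 := by positivity
    field_simp
  have hHm := (hH.mem (m + 1)).2
  have ev1 := ev_ss (st.l * st.c) 1 (c := min (1 / 8) θ) (lt_min (by norm_num) hθpos)
  have ev2 := ev_ss (st.l * st.c) C₇ (c := min (min κ (1 / 8)) (min (H (m - 1) - 7 / 8)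
    ((1 - H (m + 1)) / 2))) (lt_min (lt_min hκ (by norm_num)) (lt_min (by linarith) (by linarith)))
  have ev3 := ev_es hu ((C + 1 / θ + C / θ) * C₁₀)
  have ev4 := ev_ee (4 * CH * Cd) (c := 1 / 4) (by norm_num)
  obtain ⟨j₁, hj₁⟩ := eventually_atTop.1 (((ev1.and ev2).and ev3).and ev4)
  refine ⟨max j₀ (max j₁ 1), C₇, G / 2, le_max_left _ _, hC₇1, by positivity, ?_⟩
  intro e he ok
  subst he
  intro j n F a b T ε _ hj hε hεj hE
  have hjj₀ : j₀ ≤ j := (le_max_left _ _).trans hj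
  have hjj₁ : j₁ ≤ j := ((le_max_left _ _).trans (le_max_right _ _)).trans hj
  have hj1 : 1 ≤ j := ((le_max_right _ _).trans (le_max_right _ _)).trans hj
  obtain ⟨⟨⟨f1, f2⟩, f3⟩, f4⟩ := hj₁ j hjj₁
  rw [one_mul] at f1
  have he := ee_pos hj1
  have he1 := ee_le hj1
  have hss := ss_pos hu hj1
  set S := ss (e.l * e.c) j with hS
  have heS : 0 < ee j * S := mul_pos he hss
  have htau := tau_pos hj1
  have htau1 := tau_le hj1
  -- the small quantities
  have g0 : (C + 1 / θ + C / θ) * ε ≤ ee j * S := by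
    refine le_trans ?_ f3
    rw [mul_assoc]
    exact mul_le_mul_of_nonneg_left hεj (by positivity)
  have i3 : C * ε ≤ ee j * S := by
    refine le_trans (mul_le_mul_of_nonneg_right ?_ hε.le) g0
    have : 0 ≤ 1 / θ + C / θ := by positivity
    linarith
  have i2 : ε ≤ ee j * S := (le_mul_of_one_le_left hε.le hC).trans i3
  have i2' : ε ≤ θ * (ee j * S) := by
    have h1 : 1 / θ * ε ≤ ee j * S := by
      refine le_trans (mul_le_mul_of_nonneg_right ?_ hε.le) g0
      have : 0 ≤ C + C / θ := by positivity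
      linarith
    have h2 := mul_le_mul_of_nonneg_left h1 hθpos.le
    calc ε = θ * (1 / θ * ε) := by field_simp
      _ ≤ _ := h2
  have i3' : C * ε ≤ θ * (ee j * S) := by
    have h1 : C / θ * ε ≤ ee j * S := by
      refine le_trans (mul_le_mul_of_nonneg_right ?_ hε.le) g0
      have : 0 ≤ C + 1 / θ := by positivity
      linarith
    have h2 := mul_le_mul_of_nonneg_left h1 hθpos.le
    calc C * ε = θ * (C / θ * ε) := by field_simp
      _ ≤ _ := h2
  have hS8 : S ≤ 1 / 8 := f1.trans (min_le_left _ _)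
  have hSθ : S ≤ θ := f1.trans (min_le_right _ _)
  have hσ0 : S / (2 * (e.l * e.c)) ≤ 1 := by
    have h1 : C₇ * S ≤ 1 / 8 := f2.trans ((min_le_left _ _).trans (min_le_right _ _))
    have h2 : 1 / (2 * (e.l * e.c)) * S ≤ C₇ * S := by
      refine mul_le_mul_of_nonneg_right ?_ hss.le
      rw [hC₇def]; linarith
    rw [div_eq_mul_one_div, mul_comm]
    linarith
  have hσpos : 0 < S / (2 * (e.l * e.c)) := by positivity
  have huσ : e.l * e.c * (S / (2 * (e.l * e.c))) = S / 2 := by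
    have h0 := hu.ne'
    generalize e.l * e.c = u at h0 ⊢
    field_simp
  -- every curve
  have all : ∀ s ∈ Icc a b, ∀ σ : ℝ, |σ| ≤ S / (2 * (e.l * e.c)) →
      F.Y s T = H (-m - tau j + σ) → ∀ t ∈ Icc (T : ℝ) (T + 2 * m),
      |rho e F s t| ≤ Cρ * (ee j * S) ∧
      |F.Y s t - H (t - T - m - tau j + σ)| ≤ Cd * (ee j * S) ∧
      (|F.Y s t - 1 / 2| ≤ 1 / 4 → |eta (e.l * e.c) j (F.Y s t) (t - T - m) - e.l * e.c * σ| ≤
        CH * (Cd * (ee j * S))) := by
    intro s hs σ hσ hYσ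
    refine coreA ok hH hM hm hm1 hc₀ hlow hE₁ hCρ hCd hCH hjj₀ hj1 hS8 i2 i3
      (f4.trans (by norm_num)) hE hs ?_ (hσ.trans hσ0) hYσ
    rw [abs_mul, abs_of_pos hu]
    calc e.l * e.c * |σ| ≤ e.l * e.c * (S / (2 * (e.l * e.c))) :=
          mul_le_mul_of_nonneg_left hσ hu.le
      _ = S / 2 := huσ
  have hex : ∀ s ∈ Icc a b, ∃ σ : ℝ, |σ| ≤ S / (2 * (e.l * e.c)) ∧
      F.Y s T = H (-m - tau j + σ) := by
    intro s hs
    obtain ⟨h1, h2⟩ := hE.yy s hs
    rw [hE.ya] at h1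
    rw [hE.yb] at h2
    have hHc : Continuous H := continuous_iff_continuousAt.2 fun t => (hH.der t).continuousAt
    obtain ⟨x, hx, hfx⟩ := intermediate_value_Icc (a := -m - tau j - S / (2 * (e.l * e.c)))
      (b := -m - tau j + S / (2 * (e.l * e.c))) (by linarith) hHc.continuousOn ⟨h1, h2⟩
    refine ⟨x + m + tau j, ?_, ?_⟩
    · rw [abs_le]
      have := hx.1
      have := hx.2
      constructor <;> linarith
    · rw [← hfx]
      congr 1
      ring
  have hCHS : CH * (Cd * (ee j * S)) ≤ S / 4 := by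
    have h1 := mul_le_mul_of_nonneg_right f4 hss.le
    have h2 : 4 * CH * Cd * ee j * S = 4 * (CH * (Cd * (ee j * S))) := by ring
    rw [h2] at h1
    linarith
  have hthr : Thr e H m j F a b T C₇ := by
    constructor
    · intro s hs t ht
      obtain ⟨σ, hσ, hYσ⟩ := hex s hs
      obtain ⟨r1, r2, -⟩ := all s hs σ hσ hYσ t ht
      constructor
      · have h1 := hom_lip ok.toStaOK hH (t - T - m - tau j + σ) (t - T - m - tau j)
        rw [show t - T - m - tau j + σ - (t - T - m - tau j) = σ by ring] at h1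
        have h2 := abs_sub_le (F.Y s t) (H (t - T - m - tau j + σ)) (H (t - T - m - tau j))
        have h3 : Cd * (ee j * S) ≤ Cd * S :=
          mul_le_mul_of_nonneg_left (mul_le_of_le_one_left hss.le he1) hCd0.le
        have h4 : C₇ * S = Cd * S + S / (2 * (e.l * e.c)) + Cρ * S := by
          rw [hC₇def]; ring
        have h5 : 0 < Cρ * S := by positivity
        linarith
      · refine r1.trans ?_
        refine mul_le_mul_of_nonneg_right ?_ heS.le
        have : 0 < 1 / (2 * (e.l * e.c)) := by positivity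
        rw [hC₇def]; linarith
    · intro s hs t ht hY
      obtain ⟨σ, hσ, hYσ⟩ := hex s hs
      obtain ⟨-, -, r3⟩ := all s hs σ hσ hYσ t ht
      have h1 := r3 hY
      have h2 : |e.l * e.c * σ| ≤ S / 2 := by
        rw [abs_mul, abs_of_pos hu]
        calc e.l * e.c * |σ| ≤ e.l * e.c * (S / (2 * (e.l * e.c))) :=
              mul_le_mul_of_nonneg_left hσ hu.le
          _ = S / 2 := huσ
      have h3 := abs_sub_abs_le_abs_sub (eta (e.l * e.c) j (F.Y s t) (t - T - m))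
        (e.l * e.c * σ)
      linarith
  -- the ends
  have hend : ∀ s ∈ Icc a b, ∀ ς : ℝ, |ς| = 1 →
      F.Y s T = H (-m - tau j + ς * (S / (2 * (e.l * e.c)))) →
      G / 2 * (ee j * S) ≤ ς * (F.w s (T + 2 * m) + e.l * (F.Y s (T + 2 * m) - 1)) := by
    intro s hs ς hς hYς
    have hσ : |ς * (S / (2 * (e.l * e.c)))| ≤ S / (2 * (e.l * e.c)) := by
      rw [abs_mul, hς, one_mul, abs_of_pos hσpos]
    have hA := all s hs _ hσ hYς
    have hς2 : ς * ς = 1 := by
      have := abs_mul_abs_self ς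
      rw [hς] at this
      linarith
    have hrT : |rho e F s T| ≤ θ * (ee j * S) := by
      have hσ' := abs_le.1 (hσ.trans hσ0)
      have h1 : |F.Y s T| ≤ 1 / 8 := by
        rw [hYς]
        have h2 := hH.mem (-m - tau j + ς * (S / (2 * (e.l * e.c))))
        have h3 : H (-m - tau j + ς * (S / (2 * (e.l * e.c)))) ≤ H (-m + 1) :=
          hH.mon.monotone (by linarith)
        rw [abs_of_pos h2.1]
        linarith
      rw [LbL.k_bot ok h1]
      exact (hE.zz s hs).trans i3'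
    have hB := coreB ok hH hM hm hz hz1 hz2 hw hG hCΘ hθ hCρ1 hjj₀ hj1 (hS8.trans (by norm_num))
      hSθ i2 i2' (f2.trans ((min_le_left _ _).trans (min_le_left _ _)))
      (f2.trans ((min_le_left _ _).trans ((min_le_right _ _).trans (by norm_num)))) hE hthr hs hrT
      (fun t ht => (hA t ht).1) hς (fun t ht hY => by
        have h1 := (hA t ht).2.2 hY
        have h2 : e.l * e.c * (ς * (S / (2 * (e.l * e.c)))) = ς * (S / 2) := by
          rw [← huσ]; ring
        rw [h2] at h1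
        have h3 : |ς * eta (e.l * e.c) j (F.Y s t) (t - T - m) - S / 2| ≤ S / 4 := by
          have : ς * eta (e.l * e.c) j (F.Y s t) (t - T - m) - S / 2 =
              ς * (eta (e.l * e.c) j (F.Y s t) (t - T - m) - ς * (S / 2)) := by
            linear_combination (S / 2) * hς2
          rw [this, abs_mul, hς, one_mul]
          exact h1.trans hCHS
        have h4 := (abs_le.1 h3).1
        linarith)
    have tL : (T + 2 * m : ℝ) ∈ Icc (T : ℝ) (T + 2 * m) := ⟨by linarith, le_rfl⟩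
    have hYL := (hthr.near s hs _ tL).1
    rw [show (T : ℝ) + 2 * m - T - m - tau j = m - tau j by ring] at hYL
    have h1 : H (m - 1) ≤ H (m - tau j) := hH.mon.monotone (by linarith)
    have h2 : H (m - tau j) ≤ H (m + 1) := hH.mon.monotone (by linarith)
    have h3 := abs_le.1 hYL
    have h4 : C₇ * S ≤ H (m - 1) - 7 / 8 := f2.trans ((min_le_right _ _).trans (min_le_left _ _))
    have h5 : C₇ * S ≤ (1 - H (m + 1)) / 2 :=
      f2.trans ((min_le_right _ _).trans (min_le_right _ _))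
    have h6 : F.Y s (T + 2 * m) < 1 := by linarith [h3.2]
    have h7 : 7 / 8 ≤ F.Y s (T + 2 * m) := by linarith [h3.1]
    have h8 : |F.Y s (T + 2 * m) - 1| ≤ 1 / 8 := by
      rw [abs_le]
      constructor <;> linarith
    have hk : e.k (F.Y s (T + 2 * m)) = 1 - F.Y s (T + 2 * m) := by
      have h9 := ok.prof.anti (F.Y s (T + 2 * m) - 1)
      rw [sub_add_cancel, ok.prof.lin _ h8] at h9
      rw [h9]; ring
    have hrho : rho e F s (T + 2 * m) =
        F.w s (T + 2 * m) + e.l * (F.Y s (T + 2 * m) - 1) := by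
      unfold rho
      rw [hk]; ring
    rw [← hrho]
    rw [hk] at hB
    have h10 : 0 < ς * rho e F s (T + 2 * m) := by
      by_contra hcon
      push Not at hcon
      have : ς * ((1 - F.Y s (T + 2 * m)) * rho e F s (T + 2 * m)) ≤ 0 := by
        have := mul_nonneg (show 0 ≤ 1 - F.Y s (T + 2 * m) by linarith)
          (show 0 ≤ -(ς * rho e F s (T + 2 * m)) by linarith)
        linarith
      have : 0 < G / 2 * (ee j * S) := by positivity
      linarith
    have h11 : ς * ((1 - F.Y s (T + 2 * m)) * rho e F s (T + 2 * m)) ≤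
        ς * rho e F s (T + 2 * m) := by
      have := mul_le_of_le_one_left h10.le (show 1 - F.Y s (T + 2 * m) ≤ 1 by linarith)
      linarith
    exact hB.trans h11
  refine ⟨hthr, ?_, ?_⟩
  · have h1 := hend a ⟨le_rfl, hE.le⟩ (-1) (by norm_num) (by
      rw [hE.ya]
      congr 1
      ring)
    linarith
  · have h1 := hend b ⟨hE.le, le_rfl⟩ 1 (by norm_num) (by
      rw [hE.yb]
      congr 1
      ring)
    linarith

end LaL

theorem la : S_LA := LaL.main

end Pool.Agent.Helper69.EL
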